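import Pool.Agent.Helper12.MA.StB
import Pool.Agent.Helper12.MA.Lib

/-!
# Project MA, module HFA: the faces of `G - z - v`
-/

set_option autoImplicit false

namespace Pool.Agent.Helper6.MA

open Pool.Agent.Helper12.MA
open Pool.Agent.Helper51.AJ (IsMinor Planar Apex ExMinor Con Tch)
open Pool.Agent.Helper12.NK (rst Kc add cnt Pcy IsFace Cof plus)

private lemma ae_dl {V : Type} {G : SimpleGraph V} {p q : V} (h : G.Adj p q) : ae (dl G p q) p q = G := by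
  ext a b
  constructor
  · rintro (h1 | ⟨-, ⟨rfl, rfl⟩ | ⟨rfl, rfl⟩⟩)
    · exact h1.1
    · exact h
    · exact h.symm
  · intro h1
    by_cases h2 : a = p ∧ b = q
    · exact Or.inr ⟨G.ne_of_adj h1, Or.inl h2⟩
    · by_cases h3 : a = q ∧ b = p
      · exact Or.inr ⟨G.ne_of_adj h1, Or.inr h3⟩
      · exact Or.inl ⟨h1, h2, h3⟩

private lemma cong {V : Type} [Finite V] (G H : SimpleGraph V) (S : Set V)
    (h : ∀ a ∈ S, ∀ b ∈ S, (G.Adj a b ↔ H.Adj a b)) (hc : Con G S) : Con H S :=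
  ((nKCA V G S).2.2.2.2.1 H S h).1 hc

private lemma two (hFAX : StFAX) {V : Type} [Finite V] {P : SimpleGraph V} {U f : Set V} (hf : IsFace P U f)
    {z a : V} (ha : a ∈ f) :
    (∃ b ∈ f, ∃ c ∈ f, b ≠ z ∧ c ≠ z ∧ b ≠ c ∧ P.Adj a b ∧ P.Adj a c) ∨
      (P.Adj a z ∧ ∃ c ∈ f, c ≠ z ∧ c ≠ a ∧ P.Adj a c) := by
  obtain ⟨b, hb, c, hc, hbc, hba, hca, hall⟩ := (hFAX V P U f hf).2.2.2.1 a ha
  have h1 : P.Adj a b := (hall b hb).2 (Or.inl rfl)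
  have h2 : P.Adj a c := (hall c hc).2 (Or.inr rfl)
  by_cases hbz : b = z
  · right
    exact ⟨hbz ▸ h1, c, hc, fun h => hbc (hbz.trans h.symm), hca, h2⟩
  · by_cases hcz : c = z
    · right
      exact ⟨hcz ▸ h2, b, hb, hbz, hba, h1⟩
    · left
      exact ⟨b, hb, c, hc, hbz, hcz, hbc, h1, h2⟩

private lemma core (hFAX : StFAX) (hFAY : StFAY) (hFUE : StFUE) (hEFL : StEFL) (hPCL : StPCL)
    (hRIM : StRIM) (hBAS : StBAS) {V : Type} [Finite V] {G : SimpleGraph V} {z v p q r r' : V}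
    {f1 f2 f3 f4 : Set V} (h : Cfg G z v p q r r' f1 f2 f3 f4) :
    Pn G {z, v}ᶜ ∧ (∀ F, IsFace (dl G p q) {v}ᶜ F → z ∉ F → IsFace G {z, v}ᶜ F) ∧
      IsFace G {z, v}ᶜ ((f1 ∪ f2) \ {z}) := by
  obtain ⟨hvp, hvq, hvr, hvs, hpq, hpr, hps, hqr, hqs, hrs⟩ := h.ds.ne
  have azv : G.Adj z v := (h.ds.nb v).2 (Or.inl rfl)
  have azp : G.Adj z p := (h.ds.nb p).2 (Or.inr (Or.inl rfl))
  have azq : G.Adj z q := (h.ds.nb q).2 (Or.inr (Or.inr (Or.inl rfl)))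
  have azr : G.Adj z r := (h.ds.nb r).2 (Or.inr (Or.inr (Or.inr (Or.inl rfl))))
  have azs : G.Adj z r' := (h.ds.nb r').2 (Or.inr (Or.inr (Or.inr (Or.inr rfl))))
  have hzv := G.ne_of_adj azv
  have hzp := G.ne_of_adj azp
  have hzq := G.ne_of_adj azq
  have hzr := G.ne_of_adj azr
  have hzs := G.ne_of_adj azs
  have hPn : Pn (dl G p q) {v}ᶜ := ⟨(hBAS V G h.bh).2.2.2.2.1 v p q, h.ds.pl⟩
  have kc : Kc 3 G {z, v}ᶜ := (hBAS V G h.bh).2.1 z v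
  have hU : ({v}ᶜ : Set V) \ {z} = {z, v}ᶜ := by
    ext x
    simp only [Set.mem_sdiff, Set.mem_compl_iff, Set.mem_singleton_iff, Set.mem_insert_iff]
    tauto
  have mU : ∀ x, x ≠ z → x ≠ v → x ∈ ({z, v}ᶜ : Set V) := by
    intro x h1 h2 h3
    rcases h3 with h3 | h3
    · exact h1 h3
    · exact h2 h3
  have mU' : ∀ x ∈ ({z, v}ᶜ : Set V), x ≠ z ∧ x ≠ v :=
    fun x hx => ⟨fun h1 => hx (Or.inl h1), fun h1 => hx (Or.inr h1)⟩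
  have hfue := hFUE V (dl G p q) {v}ᶜ z p q hPn hzv hvp.symm hvq.symm hzp hzq hpq h.npq
    ⟨f1, h.i1, h.z1, h.p1⟩ ⟨f2, h.i2, h.z2, h.q2⟩ (by rw [ae_dl h.ds.pq, hU]; exact kc)
  rw [ae_dl h.ds.pq, hU] at hfue
  obtain ⟨plH, hface, -⟩ := hfue
  refine ⟨⟨kc, plH⟩, hface, ?_⟩
  -- the planar graph with `z` joined to `p`, `q`, `r`
  have e1 := hEFL V (dl G p q) {v}ᶜ z r' p q f4 f3 hPn
    ⟨azs, fun h1 => hzp h1.1, fun h1 => hzq h1.1⟩ h.i4 h.i3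
    (fun h1 => h.npq ⟨f3, h.i3, h1 ▸ h.p4, h.q3⟩) h.z4 h.s4 h.z3 h.s3 h.p4 hzp.symm hps h.q3 hzq.symm hqs
  have e2 : Planar (add (rst G {z, v}ᶜ) z {p, q, r}) := by
    refine (nKCA V G {v}ᶜ).2.2.2.2.2.1 _ _ ?_ e1
    have aux : ∀ b, b ∈ ({p, q, r} : Set V) → b ≠ z →
        (rst (ae (dl (dl G p q) z r') p q) {v}ᶜ).Adj z b := by
      intro b hb hbz
      have hzb : G.Adj z b ∧ b ≠ r' ∧ b ≠ v := by
        rcases hb with rfl | rfl | rfl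
        · exact ⟨azp, hps, hvp.symm⟩
        · exact ⟨azq, hqs, hvq.symm⟩
        · exact ⟨azr, hrs, hvr.symm⟩
      refine ⟨Or.inl ⟨⟨hzb.1, fun h1 => hzp h1.1, fun h1 => hzq h1.1⟩, fun h1 => hzb.2.1 h1.2,
        fun h1 => hzs h1.1⟩, hzv, hzb.2.2⟩
    intro a b hab
    rcases hab with hab | ⟨rfl, hb, hbz⟩ | ⟨rfl, ha, haz⟩
    · obtain ⟨h1, h2, h3⟩ := hab
      obtain ⟨h4, h5⟩ := mU' a h2
      obtain ⟨h6, h7⟩ := mU' b h3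
      refine ⟨?_, h5, h7⟩
      by_cases k1 : a = p ∧ b = q
      · exact Or.inr ⟨G.ne_of_adj h1, Or.inl k1⟩
      · by_cases k2 : a = q ∧ b = p
        · exact Or.inr ⟨G.ne_of_adj h1, Or.inr k2⟩
        · exact Or.inl ⟨⟨h1, k1, k2⟩, fun k => h4 k.1, fun k => h6 k.2⟩
    · exact aux b hb hbz
    · exact (aux a ha haz).symm
  have hN : ({p, q, r} : Set V) ⊆ {z, v}ᶜ := by
    rintro x (rfl | rfl | rfl)
    · exact mU _ hzp.symm hvp.symm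
    · exact mU _ hzq.symm hvq.symm
    · exact mU _ hzr.symm hvr.symm
  have hN3 : 3 ≤ ({p, q, r} : Set V).ncard :=
    (Set.ncard_eq_three.2 ⟨p, q, r, hpq, hpr, hqr, rfl⟩).ge
  have hzU : z ∉ ({z, v}ᶜ : Set V) := fun h1 => h1 (Or.inl rfl)
  obtain ⟨m, c, hc, hNc, -⟩ := nTUT V G {z, v}ᶜ {p, q, r} z kc hN hN3 hzU e2
  have hF : IsFace G {z, v}ᶜ (Set.range c) := ⟨m, c, hc, rfl⟩
  generalize Set.range c = F at hNc hF
  have hpF : p ∈ F := hNc (Or.inl rfl)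
  have hqF : q ∈ F := hNc (Or.inr (Or.inl rfl))
  have hrF : r ∈ F := hNc (Or.inr (Or.inr rfl))
  have hsF : r' ∉ F := by
    intro hs
    apply h.bh.hn v
    have i1 := nINS V G {z, v}ᶜ F {p, q, r, r'} z kc plH hF
      (by rintro x (rfl | rfl | rfl | rfl) <;> assumption) hzU
    refine (nKCA V G {v}ᶜ).2.2.2.2.2.1 _ _ ?_ i1
    intro a b hab
    obtain ⟨h1, h2, h3⟩ := hab
    have aux : ∀ x, G.Adj z x → x ∈ ({v}ᶜ : Set V) → x ∈ ({p, q, r, r'} : Set V) := by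
      intro x hx hxv
      rcases (h.ds.nb x).1 hx with k | k | k | k | k
      · exact absurd k hxv
      · exact Or.inl k
      · exact Or.inr (Or.inl k)
      · exact Or.inr (Or.inr (Or.inl k))
      · exact Or.inr (Or.inr (Or.inr k))
    by_cases ka : a = z
    · subst ka
      exact Or.inr (Or.inl ⟨rfl, aux b h1 h3, (G.ne_of_adj h1).symm⟩)
    · by_cases kb : b = z
      · subst kb
        exact Or.inr (Or.inr ⟨rfl, aux a h1.symm h2, G.ne_of_adj h1⟩)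
      · exact Or.inl ⟨h1, mU a ka h2, mU b kb h3⟩
  obtain ⟨hFU, -, hcW, hnb, -, hall⟩ := hFAX V G {z, v}ᶜ F hF
  -- `F` is connected in `P`
  have hcF : Con (dl G p q) F := by
    have k1 := (hFAY V G {z, v}ᶜ F hF p hpF).1
    have k2 : Con (dl G p q) (F \ {p}) := by
      refine cong G _ _ ?_ k1
      intro a ha b hb
      exact ⟨fun k => ⟨k, fun k3 => ha.2 k3.1, fun k3 => hb.2 k3.2⟩, fun k => k.1⟩
    obtain ⟨a, ha, b, hb, hab, hap, hbp, hc2⟩ := hnb p hpF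
    have k3 : ∃ d ∈ F, d ≠ p ∧ d ≠ q ∧ G.Adj p d := by
      rcases (hc2 q hqF).1 h.ds.pq with k | k
      · exact ⟨b, hb, hbp, fun k4 => hab (k.symm.trans k4.symm), (hc2 b hb).2 (Or.inr rfl)⟩
      · exact ⟨a, ha, hap, fun k4 => hab (k4.trans k), (hc2 a ha).2 (Or.inl rfl)⟩
    obtain ⟨d, hd, hdp, hdq, hpd⟩ := k3
    have k4 := Pool.Agent.Helper51.AJ.con_union k2 (Pool.Agent.Helper51.AJ.con_singleton (dl G p q) p)
      ⟨d, ⟨hd, hdp⟩, p, rfl, ⟨hpd.symm, fun k => hdp k.1, fun k => hdq k.1⟩⟩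
    have k5 : F \ {p} ∪ {p} = F := Set.sdiff_union_of_subset (Set.singleton_subset_iff.2 hpF)
    rwa [k5] at k4
  have hcW' : Con (dl G p q) ({z, v}ᶜ \ F) := by
    refine cong G _ _ ?_ hcW
    intro a ha b hb
    refine ⟨fun k => ⟨k, fun k3 => ha.2 ?_, fun k3 => hb.2 ?_⟩, fun k => k.1⟩
    · rw [k3.1]; exact hpF
    · rw [k3.2]; exact hpF
  have pK : PC (dl G p q) {v}ᶜ F ∅ := (hPCL V (dl G p q) {v}ᶜ).1 F (fun x hx => (mU' x (hFU hx)).2) hcF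
  have pL : ∀ f, IsFace (dl G p q) {v}ᶜ f → ∀ t ∈ f, t ≠ z → t ∉ F →
      PC (dl G p q) {v}ᶜ ({z, v}ᶜ \ F) {f} := by
    intro f hf t ht htz htF
    have htv : t ≠ v := (hFAX V _ _ f hf).1 ht
    have k1 := (hPCL V (dl G p q) {v}ᶜ).1 ({z, v}ᶜ \ F) (fun x hx => (mU' x hx.1).2) hcW'
    have k2 := (hPCL V (dl G p q) {v}ᶜ).2.1 f hf
    have k3 := (hPCL V (dl G p q) {v}ᶜ).2.2.1 ({z, v}ᶜ \ F) ∅ ∅ {f} k1 k2
      (Or.inr (Or.inl ⟨t, ⟨mU t htz htv, htF⟩, f, rfl, hf, ht⟩))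
    rwa [Set.union_empty, Set.empty_union] at k3
  have hsW : r' ∈ ({z, v}ᶜ \ F : Set V) := ⟨mU r' hzs.symm hvs.symm, hsF⟩
  have hzF : z ∉ F := fun k => (mU' z (hFU k)).1 rfl
  have hzW : z ∉ ({z, v}ᶜ \ F : Set V) := fun k => (mU' z k.1).1 rfl
  have c1 : ∀ t ∈ f1, t ≠ z → t ∈ F := by
    intro t ht htz
    by_contra htF
    exact hRIM V G z v p q r r' f1 f2 f3 f4 h F ({z, v}ᶜ \ F) ∅ {f1} pK (pL f1 h.i1 t ht htz htF)
      Set.disjoint_sdiff_right (Set.empty_disjoint _) hzF hzW 0 1 2 6 (by decide) (by decide) (by decide)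
      (Or.inl ⟨rfl, hpF⟩) (Or.inr (Or.inl ⟨rfl, rfl⟩)) (Or.inr (Or.inr (Or.inl ⟨rfl, hrF⟩)))
      (Or.inr (Or.inr (Or.inr (Or.inr (Or.inr (Or.inr (Or.inl ⟨rfl, hsW⟩)))))))
  have c2 : ∀ t ∈ f2, t ≠ z → t ∈ F := by
    intro t ht htz
    by_contra htF
    exact hRIM V G z v p q r r' f1 f2 f3 f4 h F ({z, v}ᶜ \ F) ∅ {f2} pK (pL f2 h.i2 t ht htz htF)
      Set.disjoint_sdiff_right (Set.empty_disjoint _) hzF hzW 2 3 4 6 (by decide) (by decide) (by decide)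
      (Or.inr (Or.inr (Or.inl ⟨rfl, hrF⟩))) (Or.inr (Or.inr (Or.inr (Or.inl ⟨rfl, rfl⟩))))
      (Or.inr (Or.inr (Or.inr (Or.inr (Or.inl ⟨rfl, hqF⟩)))))
      (Or.inr (Or.inr (Or.inr (Or.inr (Or.inr (Or.inr (Or.inl ⟨rfl, hsW⟩)))))))
  have hsub : (f1 ∪ f2) \ {z} ⊆ F := by
    rintro x ⟨hx | hx, hxz⟩
    · exact c1 x hx hxz
    · exact c2 x hx hxz
  -- neighbours of `z` on the two faces
  have n1 : ∀ a ∈ f1, (dl G p q).Adj a z → a = p ∨ a = r := by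
    intro a ha haz
    rcases (h.ds.nb a).1 haz.1.symm with k | k | k | k | k
    · exact absurd k ((hFAX V _ _ f1 h.i1).1 ha)
    · exact Or.inl k
    · exact absurd ⟨f1, h.i1, h.p1, k ▸ ha⟩ h.npq
    · exact Or.inr k
    · have k1 : r' ∈ f4 ∩ f1 := ⟨h.s4, k ▸ ha⟩
      rw [h.x41] at k1
      rcases k1 with k1 | k1
      · exact absurd k1.symm hzs
      · exact absurd k1.symm hps
  have n2 : ∀ a ∈ f2, (dl G p q).Adj a z → a = q ∨ a = r := by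
    intro a ha haz
    rcases (h.ds.nb a).1 haz.1.symm with k | k | k | k | k
    · exact absurd k ((hFAX V _ _ f2 h.i2).1 ha)
    · exact absurd ⟨f2, h.i2, k ▸ ha, h.q2⟩ h.npq
    · exact Or.inl k
    · exact Or.inr k
    · have k1 : r' ∈ f2 ∩ f3 := ⟨k ▸ ha, h.s3⟩
      rw [h.x23] at k1
      rcases k1 with k1 | k1
      · exact absurd k1.symm hzs
      · exact absurd k1.symm hqs
  have hq1 : q ∉ f1 := fun k => h.npq ⟨f1, h.i1, h.p1, k⟩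
  have hp2 : p ∉ f2 := fun k => h.npq ⟨f2, h.i2, k, h.q2⟩
  have hr2 : ∃ b ∈ (f1 ∪ f2) \ {z}, ∃ c ∈ (f1 ∪ f2) \ {z}, b ≠ c ∧ G.Adj r b ∧ G.Adj r c := by
    rcases two hFAX h.i1 (z := z) h.r1 with ⟨b, hb, c, hc, hbz, hcz, hbc, k1, k2⟩ | ⟨-, b, hb, hbz, hbr, k1⟩
    · exact ⟨b, ⟨Or.inl hb, hbz⟩, c, ⟨Or.inl hc, hcz⟩, hbc, k1.1, k2.1⟩
    · rcases two hFAX h.i2 (z := z) h.r2 with ⟨b, hb, c, hc, hbz, hcz, hbc, k1, k2⟩ | ⟨-, c, hc, hcz, hcr, k2⟩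
      · exact ⟨b, ⟨Or.inr hb, hbz⟩, c, ⟨Or.inr hc, hcz⟩, hbc, k1.1, k2.1⟩
      · refine ⟨b, ⟨Or.inl hb, hbz⟩, c, ⟨Or.inr hc, hcz⟩, ?_, k1.1, k2.1⟩
        rintro rfl
        have k3 : b ∈ f1 ∩ f2 := ⟨hb, hc⟩
        rw [h.x12] at k3
        rcases k3 with k3 | k3
        · exact hbz k3
        · exact hbr k3
  have heq : (f1 ∪ f2) \ {z} = F := by
    refine hall _ hsub ⟨p, Or.inl h.p1, hzp.symm⟩ ?_
    rintro a ⟨ha | ha, haz⟩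
    · rcases two hFAX h.i1 (z := z) ha with ⟨b, hb, c, hc, hbz, hcz, hbc, k1, k2⟩ | ⟨k0, b, hb, hbz, -, k1⟩
      · exact ⟨b, ⟨Or.inl hb, hbz⟩, c, ⟨Or.inl hc, hcz⟩, hbc, k1.1, k2.1⟩
      · rcases n1 a ha k0 with rfl | rfl
        · exact ⟨b, ⟨Or.inl hb, hbz⟩, q, ⟨Or.inr h.q2, hzq.symm⟩, fun k => hq1 (k ▸ hb), k1.1, h.ds.pq⟩
        · exact hr2
    · rcases two hFAX h.i2 (z := z) ha with ⟨b, hb, c, hc, hbz, hcz, hbc, k1, k2⟩ | ⟨k0, b, hb, hbz, -, k1⟩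
      · exact ⟨b, ⟨Or.inr hb, hbz⟩, c, ⟨Or.inr hc, hcz⟩, hbc, k1.1, k2.1⟩
      · rcases n2 a ha k0 with rfl | rfl
        · exact ⟨b, ⟨Or.inr hb, hbz⟩, p, ⟨Or.inl h.p1, hzp.symm⟩, fun k => hp2 (k ▸ hb), k1.1,
            h.ds.pq.symm⟩
        · exact hr2
  rw [heq]
  exact hF

theorem hHFA : StFAX → StFAY → StFNB → StFUE → StEFL → StPCL → StSYM → StRIM → StBAS → StHFA := by
  intro hFAX hFAY hFNB hFUE hEFL hPCL hSYM hRIM hBAS V _ G z v p q r r' f1 f2 f3 f4 h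
  obtain ⟨pnH, hface, hA⟩ := core hFAX hFAY hFUE hEFL hPCL hRIM hBAS h
  have hB := (core hFAX hFAY hFUE hEFL hPCL hRIM hBAS (hSYM V G z v p q r r' f1 f2 f3 f4 h).2.1).2.2
  rw [Set.union_comm f4 f3] at hB
  refine ⟨pnH, hA, hB, hface, ?_⟩
  obtain ⟨hvp, hvq, hvr, hvs, hpq, hpr, hps, hqr, hqs, hrs⟩ := h.ds.ne
  have azp : G.Adj z p := (h.ds.nb p).2 (Or.inr (Or.inl rfl))
  have azq : G.Adj z q := (h.ds.nb q).2 (Or.inr (Or.inr (Or.inl rfl)))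
  have azr : G.Adj z r := (h.ds.nb r).2 (Or.inr (Or.inr (Or.inr (Or.inl rfl))))
  have hzp := G.ne_of_adj azp
  have hzq := G.ne_of_adj azq
  have hzr := G.ne_of_adj azr
  have hPn : Pn (dl G p q) {v}ᶜ := ⟨(hBAS V G h.bh).2.2.2.2.1 v p q, h.ds.pl⟩
  have mU' : ∀ x ∈ ({z, v}ᶜ : Set V), x ≠ z ∧ x ≠ v :=
    fun x hx => ⟨fun h1 => hx (Or.inl h1), fun h1 => hx (Or.inr h1)⟩
  have hAB : (f1 ∪ f2) \ {z} ≠ (f3 ∪ f4) \ {z} := by
    intro k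
    have k1 : r ∈ (f3 ∪ f4) \ {z} := k ▸ ⟨Or.inl h.r1, hzr.symm⟩
    rcases k1.1 with k2 | k2
    · have k3 : r ∈ f1 ∩ f3 := ⟨h.r1, k2⟩
      rw [h.x13] at k3
      exact hzr.symm k3
    · have k3 : r ∈ f2 ∩ f4 := ⟨h.r2, k2⟩
      rw [h.x24] at k3
      exact hzr.symm k3
  -- two faces of `H` through an edge: every further one is one of them
  have uniq : ∀ a b, a ∈ ({z, v}ᶜ : Set V) → b ∈ ({z, v}ᶜ : Set V) → G.Adj a b → ∀ F1 F2 F3,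
      IsFace G {z, v}ᶜ F1 → IsFace G {z, v}ᶜ F2 → IsFace G {z, v}ᶜ F3 → F1 ≠ F2 → a ∈ F1 → b ∈ F1 →
      a ∈ F2 → b ∈ F2 → a ∈ F3 → b ∈ F3 → F3 = F1 ∨ F3 = F2 := by
    intro a b ha hb hab F1 F2 F3 i1 i2 i3 hne a1 b1 a2 b2 a3 b3
    obtain ⟨E, E', -, -, -, -, -, -, -, hu⟩ := (hFNB V G {z, v}ᶜ pnH).1 a ha b hb hab
    have k1 := hu F1 i1 a1 b1
    have k2 := hu F2 i2 a2 b2
    have k3 := hu F3 i3 a3 b3
    rcases k1 with k1 | k1 <;> rcases k2 with k2 | k2 <;> rcases k3 with k3 | k3 <;> subst k1 <;>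
      first
        | exact Or.inl k3
        | exact absurd k2.symm hne
        | exact Or.inr (k3.trans k2.symm)
  intro F hF
  by_contra hcon
  have hnA : F ≠ (f1 ∪ f2) \ {z} := fun k => hcon (Or.inl k)
  have hnB : F ≠ (f3 ∪ f4) \ {z} := fun k => hcon (Or.inr (Or.inl k))
  obtain ⟨hFU, hF3, -, hnb, -, -⟩ := hFAX V G {z, v}ᶜ F hF
  have hzF : z ∉ F := fun k => (mU' z (hFU k)).1 rfl
  have hnP : ¬ IsFace (dl G p q) {v}ᶜ F := fun k => hcon (Or.inr (Or.inr ⟨k, hzF⟩))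
  have pA : p ∈ (f1 ∪ f2) \ {z} := ⟨Or.inl h.p1, hzp.symm⟩
  have qA : q ∈ (f1 ∪ f2) \ {z} := ⟨Or.inr h.q2, hzq.symm⟩
  have pB : p ∈ (f3 ∪ f4) \ {z} := ⟨Or.inr h.p4, hzp.symm⟩
  have qB : q ∈ (f3 ∪ f4) \ {z} := ⟨Or.inl h.q3, hzq.symm⟩
  have hnpq : ¬ (p ∈ F ∧ q ∈ F) := by
    rintro ⟨k1, k2⟩
    rcases uniq p q (hFU k1) (hFU k2) h.ds.pq _ _ F hA hB hF hAB pA qA pB qB k1 k2 with k | k
    · exact hnA k
    · exact hnB k
  obtain ⟨t, ht⟩ : F.Nonempty := by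
    rw [Set.nonempty_iff_ne_empty]
    rintro rfl
    simp at hF3
  obtain ⟨t', ht', b', hb', -, htt, -, hall⟩ := hnb t ht
  have gtt : G.Adj t t' := (hall t' ht').2 (Or.inl rfl)
  have ptt : (dl G p q).Adj t t' :=
    ⟨gtt, fun k => hnpq ⟨k.1 ▸ ht, k.2 ▸ ht'⟩, fun k => hnpq ⟨k.2 ▸ ht', k.1 ▸ ht⟩⟩
  obtain ⟨E, E', iE, iE', hne, tE, tE2, tE', tE2', -⟩ := (hFNB V (dl G p q) {v}ᶜ hPn).1 t (mU' t (hFU ht)).2 t'
    (mU' t' (hFU ht')).2 ptt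
  have fin : ∀ E E', IsFace (dl G p q) {v}ᶜ E → IsFace (dl G p q) {v}ᶜ E' → t ∈ E → t' ∈ E → t ∈ E' → t' ∈ E' →
      z ∈ E → z ∉ E' → False := by
    intro E E' iE iE' tE tE2 tE' tE2' zE zE'
    have key : ∀ C, IsFace G {z, v}ᶜ C → p ∈ C → q ∈ C → E \ {z} ⊆ C → F = C := by
      intro C iC pC qC hsub
      have hCE : C ≠ E' := fun k => h.npq ⟨E', iE', k ▸ pC, k ▸ qC⟩
      rcases uniq t t' (hFU ht) (hFU ht') gtt C E' F iC (hface E' iE' zE') hF hCE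
        (hsub ⟨tE, (mU' t (hFU ht)).1⟩) (hsub ⟨tE2, (mU' t' (hFU ht')).1⟩) tE' tE2' ht ht' with k | k
      · exact k
      · exact absurd (k ▸ iE') hnP
    rcases h.all E iE zE with rfl | rfl | rfl | rfl
    · exact hnA (key _ hA pA qA fun x hx => ⟨Or.inl hx.1, hx.2⟩)
    · exact hnA (key _ hA pA qA fun x hx => ⟨Or.inr hx.1, hx.2⟩)
    · exact hnB (key _ hB pB qB fun x hx => ⟨Or.inl hx.1, hx.2⟩)
    · exact hnB (key _ hB pB qB fun x hx => ⟨Or.inr hx.1, hx.2⟩)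
  by_cases zE : z ∈ E
  · by_cases zE' : z ∈ E'
    · exact hne ((hFNB V (dl G p q) {v}ᶜ hPn).2.2.2.2.1 E E' iE iE' z t t' zE tE tE2 zE' tE' tE2'
        (mU' t (hFU ht)).1.symm htt.symm (mU' t' (hFU ht')).1.symm)
    · exact fin E E' iE iE' tE tE2 tE' tE2' zE zE'
  · by_cases zE' : z ∈ E'
    · exact fin E' E iE' iE tE' tE2' tE tE2 zE' zE
    · rcases uniq t t' (hFU ht) (hFU ht') gtt E E' F (hface E iE zE) (hface E' iE' zE') hF hne tE tE2 tE' tE2' ht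
        ht' with k | k
      · exact hnP (k ▸ iE)
      · exact hnP (k ▸ iE')

end Pool.Agent.Helper6.MA
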